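import Mathlib
import Pool.Agent.LibOC52.A

set_option autoImplicit false
set_option linter.unusedSectionVars false

/-! The main inequality of `LibOC52.A`, with the least branch mean `m` split off and with the cost
`(β v - m) / (w v * D v)` of a vertex. -/

namespace Pool.Agent.LibMX91

open Finset Pool.Agent.LibMST Pool.Agent.LibMSB Pool.Agent.LibOC52

variable {V : Type*} [Fintype V] [DecidableEq V]

theorem c1x {C : Finset V} {EC : Finset (Sym2 V)} (hEC : ∀ e ∈ EC, ∀ x ∈ e, x ∈ C)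
    {w : V → ℚ} (hw : ∀ v, 1 ≤ w v) {β : V → ℚ} {m : ℚ} (hm : 0 ≤ m)
    (hβ0 : ∀ v ∈ C, m ≤ β v)
    {D : V → ℕ} (hD : ∀ v ∈ C, β v ≠ m → Nx C EC v (D v) ∧ 1 ≤ D v)
    (hleaf : ∀ T ∈ tc C EC, ∑ v ∈ C.filter (fun v => β v ≠ m ∧ Lf T v), (β v - m) / (w v * (D v : ℚ)) ≤ 2 * (1 + m))
    (h1 : ∃ T ∈ tc C EC, T.1.card = 1) (h2 : ∃ T ∈ tc C EC, 2 ≤ T.1.card) {kb : ℚ}
    (hkb : ∑ T ∈ tc C EC, (∏ v ∈ T.1, w v) * ((T.1.card : ℚ) - kb) = 0) :
    0 < ∑ T ∈ tc C EC, (∏ v ∈ T.1, w v) * (((T.1.card : ℚ) + ∑ v ∈ T.1, β v) * ((T.1.card : ℚ) - kb)) := by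
  classical
  have hpos : ∀ S : Finset V, 0 < ∏ v ∈ S, w v := fun S =>
    prod_pos (fun i _ => lt_of_lt_of_le zero_lt_one (hw i))
  obtain ⟨X, hX⟩ : ∃ X : Finset V × Finset (Sym2 V) → ℚ, ∀ T, X T = (T.1.card : ℚ) - kb := ⟨_, fun _ => rfl⟩
  obtain ⟨W, hW⟩ : ∃ W : Finset V × Finset (Sym2 V) → ℚ, ∀ T, W T = ∏ v ∈ T.1, w v := ⟨_, fun _ => rfl⟩
  simp only [← hX, ← hW] at hkb ⊢
  have hWpos : ∀ T, 0 < W T := fun T => by rw [hW]; exact hpos _
  -- the linear part
  have s1 : ∑ T ∈ tc C EC, W T * (((T.1.card : ℚ) + ∑ v ∈ T.1, β v) * X T) =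
      (1 + m) * ∑ T ∈ tc C EC, W T * X T ^ 2 + ∑ T ∈ tc C EC, W T * X T * ∑ v ∈ T.1, (β v - m) := by
    have e1 : ∀ T ∈ tc C EC, W T * (((T.1.card : ℚ) + ∑ v ∈ T.1, β v) * X T) =
        ((1 + m) * (W T * X T ^ 2) + W T * X T * ∑ v ∈ T.1, (β v - m)) + (1 + m) * kb * (W T * X T) := by
      intro T _
      have h1 : (T.1.card : ℚ) = X T + kb := by rw [hX]; ring
      rw [sum_sub_distrib, sum_const, nsmul_eq_mul, h1]
      ring
    rw [sum_congr rfl e1, sum_add_distrib, sum_add_distrib, ← mul_sum, ← mul_sum, hkb, mul_zero, add_zero]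
  have s2 : ∑ T ∈ tc C EC, W T * X T * ∑ v ∈ T.1, (β v - m) =
      ∑ v ∈ C, (β v - m) * ∑ T ∈ (tc C EC).filter (fun T => v ∈ T.1), W T * X T := by
    have e1 : ∀ T ∈ tc C EC, W T * X T * ∑ v ∈ T.1, (β v - m) =
        ∑ v ∈ C, if v ∈ T.1 then (β v - m) * (W T * X T) else 0 := by
      intro T hT
      rw [mem_tc] at hT
      rw [← sum_filter, mul_sum]
      have e2 : C.filter (fun v => v ∈ T.1) = T.1 := by
        ext v
        rw [mem_filter]
        exact ⟨fun h => h.2, fun h => ⟨hT.2 h, h⟩⟩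
      rw [e2]
      apply sum_congr rfl
      intro v _
      ring
    rw [sum_congr rfl e1, sum_comm]
    apply sum_congr rfl
    intro v _
    rw [← sum_filter, mul_sum]
  have s3 : ∀ v, ∑ T ∈ (tc C EC).filter (fun T => v ∈ T.1), W T * X T =
      - ∑ T ∈ (tc C EC).filter (fun T => v ∉ T.1), W T * X T := by
    intro v
    have := sum_filter_add_sum_filter_not (tc C EC) (fun T => v ∈ T.1) (fun T => W T * X T)
    rw [hkb] at this
    linarith
  have s4 : ∀ v ∈ C, (β v - m) * ∑ T ∈ (tc C EC).filter (fun T => v ∉ T.1), W T * X T ≤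
      ∑ T ∈ tc C EC, if β v ≠ m ∧ Lf T v then W T * (max (X T) 0) ^ 2 / 2 * ((β v - m) / (w v * (D v : ℚ))) else 0 := by
    intro v hv
    by_cases hβv : β v = m
    · rw [hβv, sub_self, zero_mul]
      apply sum_nonneg
      intro T _
      split_ifs with h0
      · exact absurd rfl h0.1
      · exact le_rfl
    · obtain ⟨hNx, hD1⟩ := hD v hv hβv
      have hDq : (1 : ℚ) ≤ (D v : ℚ) := by exact_mod_cast hD1
      have hD0 : (D v : ℚ) ≠ 0 := by linarith
      have hcnt := count hEC hw hNx (f := fun k => max ((k : ℚ) - kb) 0) (fun n => le_max_right _ _)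
      have a1 : ∑ T ∈ (tc C EC).filter (fun T => v ∉ T.1), W T * X T ≤
          ∑ T ∈ (tc C EC).filter (fun T => v ∉ T.1), (∏ u ∈ T.1, w u) * max ((T.1.card : ℚ) - kb) 0 := by
        apply sum_le_sum
        intro T _
        rw [← hW, ← hX]
        exact mul_le_mul_of_nonneg_left (le_max_left _ _) (hWpos T).le
      have a2 : ∑ T ∈ (tc C EC).filter (fun T => Lf T v),
          (∏ u ∈ T.1, w u) * ∑ d ∈ Ico 1 T.1.card, max (((T.1.card - d : ℕ) : ℚ) - kb) 0 ≤
          ∑ T ∈ (tc C EC).filter (fun T => Lf T v), W T * ((max (X T) 0) ^ 2 / 2) := by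
        apply sum_le_sum
        intro T _
        rw [← hW]
        apply mul_le_mul_of_nonneg_left _ (hWpos T).le
        have e3 : ∑ d ∈ Ico 1 T.1.card, max (((T.1.card - d : ℕ) : ℚ) - kb) 0 =
            ∑ d ∈ Ico 1 T.1.card, max (X T - (d : ℚ)) 0 := by
          apply sum_congr rfl
          intro d hd
          rw [mem_Ico] at hd
          rw [Nat.cast_sub hd.2.le, hX]
          congr 1
          ring
        rw [e3]
        exact psum _ _
      have a3 : ∑ T ∈ tc C EC, (if β v ≠ m ∧ Lf T v then W T * (max (X T) 0) ^ 2 / 2 * ((β v - m) / (w v * (D v : ℚ))) else 0) =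
          (β v - m) * ((∑ T ∈ (tc C EC).filter (fun T => Lf T v), W T * ((max (X T) 0) ^ 2 / 2)) / (w v * (D v : ℚ))) := by
        rw [← sum_filter, sum_div, mul_sum]
        have e4 : (tc C EC).filter (fun T => β v ≠ m ∧ Lf T v) = (tc C EC).filter (fun T => Lf T v) := by
          ext T
          rw [mem_filter, mem_filter]
          exact ⟨fun h => ⟨h.1, h.2.2⟩, fun h => ⟨h.1, hβv, h.2⟩⟩
        rw [e4]
        apply sum_congr rfl
        intro T _
        ring
      rw [a3]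
      have a4 : 0 ≤ ∑ T ∈ (tc C EC).filter (fun T => v ∉ T.1), (∏ u ∈ T.1, w u) * max ((T.1.card : ℚ) - kb) 0 := by
        apply sum_nonneg
        intro T _
        exact mul_nonneg (hpos _).le (le_max_right _ _)
      have a5 : 0 < w v * (D v : ℚ) := mul_pos (by linarith [hw v]) (by linarith)
      have a6 : 0 ≤ β v - m := by linarith [hβ0 v hv]
      calc (β v - m) * ∑ T ∈ (tc C EC).filter (fun T => v ∉ T.1), W T * X T
          ≤ (β v - m) * ∑ T ∈ (tc C EC).filter (fun T => v ∉ T.1), (∏ u ∈ T.1, w u) * max ((T.1.card : ℚ) - kb) 0 :=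
            mul_le_mul_of_nonneg_left a1 a6
        _ ≤ _ := by
          apply mul_le_mul_of_nonneg_left _ a6
          rw [le_div_iff₀ a5]
          linarith
  have s5 : ∑ v ∈ C, (β v - m) * ∑ T ∈ (tc C EC).filter (fun T => v ∉ T.1), W T * X T ≤
      (1 + m) * ∑ T ∈ tc C EC, W T * (max (X T) 0) ^ 2 := by
    refine (sum_le_sum s4).trans ?_
    rw [sum_comm, mul_sum]
    apply sum_le_sum
    intro T hT
    rw [← sum_filter, ← mul_sum]
    have b2 : 0 ≤ W T * (max (X T) 0) ^ 2 / 2 := by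
      have := hWpos T
      positivity
    calc W T * (max (X T) 0) ^ 2 / 2 * ∑ v ∈ C.filter (fun v => β v ≠ m ∧ Lf T v), (β v - m) / (w v * (D v : ℚ))
        ≤ W T * (max (X T) 0) ^ 2 / 2 * (2 * (1 + m)) := mul_le_mul_of_nonneg_left (hleaf T hT) b2
      _ = _ := by ring
  have s6 : ∑ v ∈ C, (β v - m) * ∑ T ∈ (tc C EC).filter (fun T => v ∈ T.1), W T * X T =
      - ∑ v ∈ C, (β v - m) * ∑ T ∈ (tc C EC).filter (fun T => v ∉ T.1), W T * X T := by
    rw [← sum_neg_distrib]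
    apply sum_congr rfl
    intro v _
    rw [s3 v]
    ring
  have s7 : ∀ T, W T * X T ^ 2 - W T * (max (X T) 0) ^ 2 = W T * (min (X T) 0) ^ 2 := by
    intro T
    rcases le_total 0 (X T) with h | h
    · rw [max_eq_left h, min_eq_right h]; ring
    · rw [max_eq_right h, min_eq_left h]; ring
  have s8 : 0 < ∑ T ∈ tc C EC, W T * (min (X T) 0) ^ 2 := by
    obtain ⟨T1, hT1, hk1⟩ := h1
    obtain ⟨T2, hT2, hk2⟩ := h2
    have hneg : X T1 < 0 := by
      by_contra hcon
      push Not at hcon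
      have hkb1 : kb ≤ 1 := by
        rw [hX, hk1] at hcon
        push_cast at hcon
        linarith
      have hall : ∀ T ∈ tc C EC, 0 ≤ W T * X T := by
        intro T hT
        have := card_pos_tc hT
        have h3 : (1 : ℚ) ≤ T.1.card := by exact_mod_cast this
        apply mul_nonneg (hWpos T).le
        rw [hX]
        linarith
      have h4 : 0 < W T2 * X T2 := by
        apply mul_pos (hWpos T2)
        rw [hX]
        have : (2 : ℚ) ≤ T2.1.card := by exact_mod_cast hk2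
        linarith
      have h5 := sum_pos' hall ⟨T2, hT2, h4⟩
      linarith
    apply sum_pos'
    · intro T _
      have := hWpos T
      positivity
    · refine ⟨T1, hT1, ?_⟩
      rw [min_eq_left hneg.le]
      have := hWpos T1
      have h6 : 0 < X T1 ^ 2 := by nlinarith
      exact mul_pos this h6
  have s9 : ∑ T ∈ tc C EC, W T * X T ^ 2 - ∑ T ∈ tc C EC, W T * (max (X T) 0) ^ 2 =
      ∑ T ∈ tc C EC, W T * (min (X T) 0) ^ 2 := by
    rw [← sum_sub_distrib]
    exact sum_congr rfl (fun T _ => s7 T)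
  have s10 : 0 < (1 + m) * ∑ T ∈ tc C EC, W T * (min (X T) 0) ^ 2 := mul_pos (by linarith) s8
  rw [← s9] at s10
  rw [s1, s2, s6]
  linarith

end Pool.Agent.LibMX91
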