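import Mathlib
import Pool.Agent.LibMX91.B
import Pool.Agent.LibMX91.S

set_option autoImplicit false
set_option linter.unusedSectionVars false

namespace Pool.Agent.LibMX91

open Finset Pool.Agent.LibMST Pool.Agent.LibMSB Pool.Agent.LibOC52 Pool.Agent.LibMC91 Pool.Agent.LibMB68

variable {V : Type*} [Fintype V] [DecidableEq V]

/-- Positive covariance, with the size of the piece against the largest cost. -/
theorem cov_posXs {E : Finset (Sym2 V)} {C : Finset V} (hl : ∀ e ∈ E, ¬ e.IsDiag) (hE : Cn E univ) (hC : Piece E C)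
    (hlo : Lo E Cᶜ) {m : ℚ} (hm : 0 ≤ m) (hmb : ∀ v ∈ C, m ≤ (sh E C v : ℚ) / wh E C v - 1) {D : V → ℕ}
    (hD : ∀ v ∈ C, (sh E C v : ℚ) / wh E C v - 1 ≠ m → Nx C (ein E C) v (D v) ∧ 1 ≤ D v)
    (hcost : ∀ v ∈ C, (C.card : ℚ) * (((sh E C v : ℚ) / wh E C v - 1 - m) / ((wh E C v : ℚ) * (D v : ℚ))) ≤
      4 * (1 + m)) :
    ∃ e ∈ ein E C, 0 < cov E e := by
  have _ := hE
  refine cov_posG hl hC hlo ?_
  intro h1 h2 kb hkb
  exact c1sx (fun e he => (mem_ein.1 he).2) (fun v => wh_one E C v) hm hmb (fun v => br_le E C v) hD hcost h1 h2 hkb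

end Pool.Agent.LibMX91
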